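import Pool.Agent.helper1.SF.SpecA

set_option autoImplicit false

namespace SF

open MeasureTheory Set

theorem ZPA_ftc (f F : ℝ → ℝ) (a b : ℝ) (hab : a ≤ b) (hc : ContinuousOn F (Icc a b))
    (hd : ∀ x ∈ Ioo a b, HasDerivAt F (f x) x) (hn : ∀ x ∈ Ioo a b, 0 ≤ f x) :
    IntervalIntegrable f volume a b ∧ ∫ x in a..b, f x = F b - F a := by
  have h1 : IntervalIntegrable f volume a b := by
    apply intervalIntegral.intervalIntegrable_deriv_of_nonneg (g := F)
    · rwa [uIcc_of_le hab]
    · rwa [min_eq_left hab, max_eq_right hab]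
    · rwa [min_eq_left hab, max_eq_right hab]
  exact ⟨h1, intervalIntegral.integral_eq_sub_of_hasDerivAt_of_le hab hc hd h1⟩

theorem ZPA_zero (f : ℝ → ℝ) (a b : ℝ) (hab : a ≤ b) (h : ∀ x ∈ Icc a b, f x = 0) :
    IntervalIntegrable f volume a b ∧ ∫ x in a..b, f x = 0 := by
  have he : EqOn (fun _ => (0 : ℝ)) f (uIcc a b) := by
    intro x hx
    rw [uIcc_of_le hab] at hx
    exact (h x hx).symm
  constructor
  · exact (intervalIntegrable_const (c := (0 : ℝ))).congr (fun x hx => he (uIoc_subset_uIcc hx))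
  · rw [← intervalIntegral.integral_congr he]
    simp

theorem ZPA_split (f : ℝ → ℝ) (a m b I J : ℝ)
    (h1 : IntervalIntegrable f volume a m ∧ ∫ x in a..m, f x = I)
    (h2 : IntervalIntegrable f volume m b ∧ ∫ x in m..b, f x = J) :
    IntervalIntegrable f volume a b ∧ ∫ x in a..b, f x = I + J := by
  refine ⟨h1.1.trans h2.1, ?_⟩
  rw [← intervalIntegral.integral_add_adjacent_intervals h1.1 h2.1, h1.2, h2.2]

/-- the case `α > 0` -/
theorem ZPA_pos (α γ y0 : ℝ) (hα : 0 < α) (h0 : 0 < y0) (h1 : y0 ≤ 1) :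
    IntervalIntegrable (fun y => 1 / √(γ - α * y ^ 2)) volume y0 1 ∧
      ∫ y in y0..1, 1 / √(γ - α * y ^ 2) ≤ 2 / √α := by
  rcases le_or_gt γ 0 with hγ | hγ
  · have hz := ZPA_zero (fun y => 1 / √(γ - α * y ^ 2)) y0 1 h1 (by
      intro x _
      have : γ - α * x ^ 2 ≤ 0 := by nlinarith [sq_nonneg x]
      simp only [Real.sqrt_eq_zero_of_nonpos this, div_zero])
    refine ⟨hz.1, ?_⟩
    rw [hz.2]; positivity
  · set r := √(γ / α) with hr
    have hrpos : 0 < r := Real.sqrt_pos.mpr (div_pos hγ hα)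
    have hr2 : α * r ^ 2 = γ := by
      rw [hr, Real.sq_sqrt (div_pos hγ hα).le]; field_simp
    have hzero : ∀ x, r ≤ x → 1 / √(γ - α * x ^ 2) = 0 := by
      intro x hx
      have : γ - α * x ^ 2 ≤ 0 := by
        have : r ^ 2 ≤ x ^ 2 := pow_le_pow_left₀ hrpos.le hx 2
        nlinarith
      simp only [Real.sqrt_eq_zero_of_nonpos this, div_zero]
    rcases le_or_gt r y0 with hry | hry
    · have hz := ZPA_zero (fun y => 1 / √(γ - α * y ^ 2)) y0 1 h1
        (fun x hx => hzero x (hry.trans hx.1))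
      refine ⟨hz.1, ?_⟩
      rw [hz.2]; positivity
    · -- main part on [y0, m]
      have hsa : 0 < √α := Real.sqrt_pos.mpr hα
      have hmain : ∀ m, y0 ≤ m → m ≤ r →
          IntervalIntegrable (fun y => 1 / √(γ - α * y ^ 2)) volume y0 m ∧
          ∫ y in y0..m, 1 / √(γ - α * y ^ 2) =
            1 / √α * Real.arcsin (m / r) - 1 / √α * Real.arcsin (y0 / r) := by
        intro m hm1 hm2
        apply ZPA_ftc _ (fun y => 1 / √α * Real.arcsin (y / r)) y0 m hm1
        · exact (continuous_const.mul (Real.continuous_arcsin.comp (continuous_id.div_const r))).continuousOn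
        · intro x hx
          have hxr : x < r := lt_of_lt_of_le hx.2 hm2
          have hx0 : 0 < x := h0.trans hx.1
          have hq1 : x / r < 1 := (div_lt_one hrpos).mpr hxr
          have hq0 : 0 < x / r := div_pos hx0 hrpos
          have hd : HasDerivAt (fun y => Real.arcsin (y / r)) (1 / √(1 - (x / r) ^ 2) * (1 / r)) x := by
            have := (Real.hasDerivAt_arcsin (x := x / r) (by linarith) (by linarith)).comp x
              ((hasDerivAt_id x).div_const r)
            exact this
          have hd2 := hd.const_mul (1 / √α)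
          have hpos : 0 < 1 - (x / r) ^ 2 := by nlinarith
          have e1 : γ - α * x ^ 2 = (α * r ^ 2) * (1 - (x / r) ^ 2) := by
            rw [← hr2]; field_simp
          have e2 : 1 / √(γ - α * x ^ 2) = 1 / √α * (1 / √(1 - (x / r) ^ 2) * (1 / r)) := by
            rw [e1, Real.sqrt_mul (by positivity), Real.sqrt_mul hα.le, Real.sqrt_sq hrpos.le]
            have : 0 < √(1 - (x / r) ^ 2) := Real.sqrt_pos.mpr hpos
            field_simp
          rw [e2]
          exact hd2
        · intro x _; positivity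
      have harc : 0 ≤ Real.arcsin (y0 / r) := Real.arcsin_nonneg.mpr (by positivity)
      have hpi := Real.pi_le_four
      rcases le_or_gt 1 r with h1r | h1r
      · obtain ⟨hi, hv⟩ := hmain 1 h1 h1r
        refine ⟨hi, ?_⟩
        rw [hv]
        have := Real.arcsin_le_pi_div_two (1 / r)
        have h2 : 1 / √α * Real.arcsin (1 / r) - 1 / √α * Real.arcsin (y0 / r) =
          (Real.arcsin (1 / r) - Real.arcsin (y0 / r)) / √α := by ring
        rw [h2]
        gcongr
        linarith
      · obtain ⟨hi, hv⟩ := ZPA_split _ y0 r 1 _ _ (hmain r hry.le le_rfl)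
          (ZPA_zero (fun y => 1 / √(γ - α * y ^ 2)) r 1 h1r.le (fun x hx => hzero x hx.1))
        refine ⟨hi, ?_⟩
        rw [hv]
        have := Real.arcsin_le_pi_div_two (r / r)
        have h2 : 1 / √α * Real.arcsin (r / r) - 1 / √α * Real.arcsin (y0 / r) + 0 =
          (Real.arcsin (r / r) - Real.arcsin (y0 / r)) / √α := by ring
        rw [h2]
        gcongr
        linarith

/-- the case `γ - α y² = γ + a y²`, `γ ≥ 0`, `a ≥ 0` -/
theorem ZPA_nn (a γ y0 : ℝ) (ha : 0 ≤ a) (hγ : 0 ≤ γ) (h0 : 0 < y0) (h1 : y0 ≤ 1) :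
    IntervalIntegrable (fun y => 1 / √(γ + a * y ^ 2)) volume y0 1 ∧
      (0 < γ → ∫ y in y0..1, 1 / √(γ + a * y ^ 2) ≤ 1 / √γ) ∧
      (0 < a → ∫ y in y0..1, 1 / √(γ + a * y ^ 2) ≤ 1 / √a * Real.log (1 / y0)) := by
  have hint : IntervalIntegrable (fun y => 1 / √(γ + a * y ^ 2)) volume y0 1 := by
    by_cases hz : γ + a * y0 ^ 2 = 0
    · refine (ZPA_zero _ y0 1 h1 ?_).1
      have hy : 0 < y0 ^ 2 := by positivity
      have ha0 : a = 0 := by
        have : a * y0 ^ 2 = 0 := by nlinarith [mul_nonneg ha hy.le]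
        rcases mul_eq_zero.mp this with h | h
        · exact h
        · linarith
      have hg0 : γ = 0 := by nlinarith
      intro x _
      simp [ha0, hg0]
    · have hp : 0 < γ + a * y0 ^ 2 := lt_of_le_of_ne (by positivity) (Ne.symm hz)
      apply ContinuousOn.intervalIntegrable
      rw [uIcc_of_le h1]
      apply ContinuousOn.div continuousOn_const
      · exact (Real.continuous_sqrt.comp (by fun_prop)).continuousOn
      · intro x hx
        have : γ + a * y0 ^ 2 ≤ γ + a * x ^ 2 := by
          have : y0 ^ 2 ≤ x ^ 2 := pow_le_pow_left₀ h0.le hx.1 2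
          nlinarith
        exact (Real.sqrt_pos.mpr (by linarith)).ne'
  refine ⟨hint, ?_, ?_⟩
  · intro hg
    have hb : ∫ y in y0..1, 1 / √(γ + a * y ^ 2) ≤ ∫ y in y0..1, 1 / √γ := by
      apply intervalIntegral.integral_mono_on h1 hint intervalIntegrable_const
      intro x _
      apply one_div_le_one_div_of_le (Real.sqrt_pos.mpr hg)
      apply Real.sqrt_le_sqrt
      nlinarith [mul_nonneg ha (sq_nonneg x)]
    refine hb.trans ?_
    rw [intervalIntegral.integral_const, smul_eq_mul]
    have : 0 < 1 / √γ := by positivity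
    nlinarith
  · intro hapos
    have hsa : 0 < √a := Real.sqrt_pos.mpr hapos
    have hi2 : IntervalIntegrable (fun y : ℝ => 1 / √a * (1 / y)) volume y0 1 := by
      apply ContinuousOn.intervalIntegrable
      rw [uIcc_of_le h1]
      apply ContinuousOn.mul continuousOn_const
      apply ContinuousOn.div continuousOn_const continuousOn_id
      intro x hx
      exact (h0.trans_le hx.1).ne'
    have hb : ∫ y in y0..1, 1 / √(γ + a * y ^ 2) ≤ ∫ y in y0..1, 1 / √a * (1 / y) := by
      apply intervalIntegral.integral_mono_on h1 hint hi2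
      intro x hx
      have hx0 : 0 < x := h0.trans_le hx.1
      have e : 1 / √a * (1 / x) = 1 / √(a * x ^ 2) := by
        rw [Real.sqrt_mul ha, Real.sqrt_sq hx0.le]; field_simp
      rw [e]
      apply one_div_le_one_div_of_le (Real.sqrt_pos.mpr (by positivity))
      apply Real.sqrt_le_sqrt
      linarith
    refine hb.trans ?_
    rw [intervalIntegral.integral_const_mul, integral_one_div_of_pos h0 one_pos]

/-- the case `γ = -c < 0`, `α = -a < 0`, `c < a` -/
theorem ZPA_neg (a c y0 : ℝ) (hc : 0 < c) (hca : c < a) (h0 : 0 < y0) (h1 : y0 ≤ 1) :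
    IntervalIntegrable (fun y => 1 / √(a * y ^ 2 - c)) volume y0 1 ∧
      ∫ y in y0..1, 1 / √(a * y ^ 2 - c) ≤ 1 / √a * (Real.log 2 + Real.log (1 / y0)) := by
  have ha : 0 < a := hc.trans hca
  have hsa : 0 < √a := Real.sqrt_pos.mpr ha
  set r := √(c / a) with hr
  have hrpos : 0 < r := Real.sqrt_pos.mpr (div_pos hc ha)
  have hr2 : a * r ^ 2 = c := by
    rw [hr, Real.sq_sqrt (div_pos hc ha).le]; field_simp
  have hr1 : r < 1 := by
    have : r ^ 2 < 1 := by
      rw [hr, Real.sq_sqrt (div_pos hc ha).le]; exact (div_lt_one ha).mpr hca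
    nlinarith
  have hmain : ∀ m, 0 < m → r ≤ m → m ≤ 1 →
      IntervalIntegrable (fun y => 1 / √(a * y ^ 2 - c)) volume m 1 ∧
      ∫ y in m..1, 1 / √(a * y ^ 2 - c) =
        1 / √a * Real.log (1 + √(1 ^ 2 - r ^ 2)) - 1 / √a * Real.log (m + √(m ^ 2 - r ^ 2)) := by
    intro m hm0 hm1 hm2
    apply ZPA_ftc _ (fun y => 1 / √a * Real.log (y + √(y ^ 2 - r ^ 2))) m 1 hm2
    · apply ContinuousOn.mul continuousOn_const
      apply ContinuousOn.log
      · exact (continuous_id.add (Real.continuous_sqrt.comp (by fun_prop))).continuousOn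
      · intro x hx
        have : 0 < x := hm0.trans_le hx.1
        have h2 : 0 ≤ √(x ^ 2 - r ^ 2) := Real.sqrt_nonneg _
        linarith
    · intro x hx
      have hxr : r < x := lt_of_le_of_lt hm1 hx.1
      have hx0 : 0 < x := hm0.trans hx.1
      have hpos : 0 < x ^ 2 - r ^ 2 := by nlinarith
      have hs : 0 < √(x ^ 2 - r ^ 2) := Real.sqrt_pos.mpr hpos
      have hd1 : HasDerivAt (fun y : ℝ => y ^ 2 - r ^ 2) (2 * x) x := by
        have := (hasDerivAt_pow 2 x).sub_const (r ^ 2)
        simpa using this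
      have hd2 := hd1.sqrt hpos.ne'
      have hd3 : HasDerivAt (fun y : ℝ => y + √(y ^ 2 - r ^ 2)) (1 + 2 * x / (2 * √(x ^ 2 - r ^ 2))) x :=
        (hasDerivAt_id x).add hd2
      have hne : x + √(x ^ 2 - r ^ 2) ≠ 0 := by positivity
      have hd4 := (hd3.log hne).const_mul (1 / √a)
      have e1 : a * x ^ 2 - c = a * (x ^ 2 - r ^ 2) := by rw [← hr2]; ring
      have e2 : 1 / √(a * x ^ 2 - c) =
          1 / √a * ((1 + 2 * x / (2 * √(x ^ 2 - r ^ 2))) / (x + √(x ^ 2 - r ^ 2))) := by
        rw [e1, Real.sqrt_mul ha.le]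
        field_simp
        ring
      rw [e2]
      exact hd4
    · intro x _; positivity
  have hbound : ∀ m, y0 ≤ m → r ≤ m →
      1 / √a * Real.log (1 + √(1 ^ 2 - r ^ 2)) - 1 / √a * Real.log (m + √(m ^ 2 - r ^ 2)) ≤
        1 / √a * (Real.log 2 + Real.log (1 / y0)) := by
    intro m hm1 hm2
    have e : 1 / √a * Real.log (1 + √(1 ^ 2 - r ^ 2)) - 1 / √a * Real.log (m + √(m ^ 2 - r ^ 2)) =
      1 / √a * (Real.log (1 + √(1 ^ 2 - r ^ 2)) - Real.log (m + √(m ^ 2 - r ^ 2))) := by ring
    rw [e]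
    apply mul_le_mul_of_nonneg_left _ (by positivity)
    have g1 : Real.log (1 + √(1 ^ 2 - r ^ 2)) ≤ Real.log 2 := by
      apply Real.log_le_log (by positivity)
      have : √(1 ^ 2 - r ^ 2) ≤ 1 := by
        rw [Real.sqrt_le_one]
        nlinarith [sq_nonneg r]
      linarith
    have g2 : Real.log y0 ≤ Real.log (m + √(m ^ 2 - r ^ 2)) := by
      apply Real.log_le_log h0
      have := Real.sqrt_nonneg (m ^ 2 - r ^ 2)
      linarith
    have g3 : Real.log (1 / y0) = - Real.log y0 := by rw [one_div, Real.log_inv]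
    rw [g3]
    linarith
  rcases le_or_gt r y0 with h | h
  · obtain ⟨hi, hv⟩ := hmain y0 h0 h h1
    exact ⟨hi, by rw [hv]; exact hbound y0 le_rfl h⟩
  · have hz := ZPA_zero (fun y => 1 / √(a * y ^ 2 - c)) y0 r h.le (by
      intro x hx
      have hx0 : 0 < x := h0.trans_le hx.1
      have : a * x ^ 2 - c ≤ 0 := by
        have : x ^ 2 ≤ r ^ 2 := pow_le_pow_left₀ hx0.le hx.2 2
        nlinarith
      simp only [Real.sqrt_eq_zero_of_nonpos this, div_zero])
    obtain ⟨hi, hv⟩ := ZPA_split _ y0 r 1 _ _ hz (hmain r hrpos le_rfl hr1.le)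
    refine ⟨hi, ?_⟩
    rw [hv, zero_add]
    exact hbound r h.le le_rfl

theorem ZPA_sq (δ x : ℝ) (hδ : 0 < δ) (h : 4 * δ ≤ x) : 1 / √x ≤ 1 / (2 * √δ) := by
  have hs : 0 < √δ := Real.sqrt_pos.mpr hδ
  apply one_div_le_one_div_of_le (by positivity)
  have : 2 * √δ = √(4 * δ) := by
    rw [Real.sqrt_mul (by norm_num), show (4 : ℝ) = 2 ^ 2 by norm_num, Real.sqrt_sq (by norm_num)]
  rw [this]
  exact Real.sqrt_le_sqrt h

theorem ZPA : ZPA_stmt := by
  refine ⟨4, by norm_num, ?_⟩
  intro α γ δ y0 hδ h0 hhalf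
  have h1 : y0 ≤ 1 := by linarith
  have hs : 0 < √δ := Real.sqrt_pos.mpr hδ
  have hL : Real.log 2 ≤ Real.log (1 / y0) := by
    apply Real.log_le_log (by norm_num)
    rw [le_div_iff₀ h0]; linarith
  have hl2 : (1 / 2 : ℝ) ≤ Real.log 2 := by
    have := Real.log_two_gt_d9; linarith
  have hLh : (1 / 2 : ℝ) ≤ Real.log (1 / y0) := hl2.trans hL
  -- a bound `t ≤ 2 / (√δ)` suffices
  have key : ∀ t : ℝ, t ≤ 2 / √δ → t ≤ 4 / √δ * Real.log (1 / y0) := by
    intro t ht
    refine ht.trans ?_
    have : 2 / √δ = 4 / √δ * (1 / 2) := by ring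
    rw [this]
    exact mul_le_mul_of_nonneg_left hLh (by positivity)
  have key2 : ∀ t : ℝ, t ≤ 1 / (2 * √δ) * (Real.log 2 + Real.log (1 / y0)) →
      t ≤ 4 / √δ * Real.log (1 / y0) := by
    intro t ht
    refine ht.trans ?_
    have e1 : 1 / (2 * √δ) * (Real.log 2 + Real.log (1 / y0)) ≤
        1 / (2 * √δ) * (2 * Real.log (1 / y0)) := by
      apply mul_le_mul_of_nonneg_left _ (by positivity)
      linarith
    refine e1.trans ?_
    have e2 : 1 / (2 * √δ) * (2 * Real.log (1 / y0)) = 1 / √δ * Real.log (1 / y0) := by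
      field_simp
    rw [e2]
    apply mul_le_mul_of_nonneg_right _ (by linarith)
    gcongr
    norm_num
  have h2s : ∀ x : ℝ, 4 * δ ≤ x → 2 / √x ≤ 2 / √δ := by
    intro x hx
    apply div_le_div_of_nonneg_left (by norm_num) hs
    apply Real.sqrt_le_sqrt
    linarith
  rcases lt_or_ge 0 α with hα | hα
  · obtain ⟨hi, hv⟩ := ZPA_pos α γ y0 hα h0 h1
    refine ⟨hi, ?_, fun _ => hv⟩
    intro hor
    apply key
    rcases le_or_gt (2 * δ) α with hαδ | hαδ
    · refine hv.trans ?_
      apply div_le_div_of_nonneg_left (by norm_num) hs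
      apply Real.sqrt_le_sqrt
      linarith
    · -- α < 2 δ, so |γ| ≥ 4 δ
      have hg : 4 * δ ≤ |γ| := by
        rcases hor with h | h
        · rw [abs_of_pos hα] at h; linarith
        · exact h
      rcases le_or_gt γ 0 with hγ | hγ
      · have hz := ZPA_zero (fun y => 1 / √(γ - α * y ^ 2)) y0 1 h1 (by
          intro x _
          have : γ - α * x ^ 2 ≤ 0 := by nlinarith [sq_nonneg x]
          simp only [Real.sqrt_eq_zero_of_nonpos this, div_zero])
        rw [hz.2]; positivity
      · rw [abs_of_pos hγ] at hg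
        have hb : ∫ y in y0..1, 1 / √(γ - α * y ^ 2) ≤ ∫ y in y0..1, 1 / √δ := by
          apply intervalIntegral.integral_mono_on h1 hi intervalIntegrable_const
          intro x hx
          apply one_div_le_one_div_of_le hs
          apply Real.sqrt_le_sqrt
          have hx0 : 0 < x := h0.trans_le hx.1
          have : x ^ 2 ≤ 1 := by nlinarith [hx.2]
          nlinarith
        refine hb.trans ?_
        rw [intervalIntegral.integral_const, smul_eq_mul]
        have e1 : (1 - y0) * (1 / √δ) ≤ 1 * (1 / √δ) := by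
          apply mul_le_mul_of_nonneg_right _ (by positivity)
          linarith
        refine e1.trans ?_
        rw [one_mul]
        gcongr
        norm_num
  · obtain ⟨a, rfl⟩ : ∃ a, α = -a := ⟨-α, by ring⟩
    have ha : 0 ≤ a := by linarith
    have hno : ¬ (0 < -a) := by linarith
    rcases le_or_gt 0 γ with hγ | hγ
    · have hfun : (fun y : ℝ => 1 / √(γ - -a * y ^ 2)) = fun y => 1 / √(γ + a * y ^ 2) := by
        funext y; congr 2; ring
      have hfun2 : ∀ y : ℝ, 1 / √(γ - -a * y ^ 2) = 1 / √(γ + a * y ^ 2) := fun y => congrFun hfun y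
      simp only [hfun2]
      obtain ⟨hi, hv1, hv2⟩ := ZPA_nn a γ y0 ha hγ h0 h1
      refine ⟨hi, ?_, fun h => absurd h hno⟩
      rintro (h | h)
      · rw [abs_neg, abs_of_nonneg ha] at h
        apply key2
        refine (hv2 (by linarith)).trans ?_
        apply mul_le_mul (ZPA_sq δ a hδ h) (by linarith) (by linarith) (by positivity)
      · rw [abs_of_nonneg hγ] at h
        apply key
        refine (hv1 (by linarith)).trans ?_
        refine (ZPA_sq δ γ hδ h).trans ?_
        rw [div_le_div_iff₀ (by positivity) hs]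
        nlinarith
    · obtain ⟨c, rfl⟩ : ∃ c, γ = -c := ⟨-γ, by ring⟩
      have hc : 0 < c := by linarith
      have hfun2 : ∀ y : ℝ, 1 / √(-c - -a * y ^ 2) = 1 / √(a * y ^ 2 - c) := by
        intro y; congr 2; ring
      simp only [hfun2]
      rcases le_or_gt a c with hac | hac
      · have hz := ZPA_zero (fun y => 1 / √(a * y ^ 2 - c)) y0 1 h1 (by
          intro x hx
          have hx0 : 0 < x := h0.trans_le hx.1
          have hx1 : x ^ 2 ≤ 1 := by nlinarith [hx.2]
          have : a * x ^ 2 - c ≤ 0 := by nlinarith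
          simp only [Real.sqrt_eq_zero_of_nonpos this, div_zero])
        refine ⟨hz.1, ?_, fun h => absurd h hno⟩
        intro _
        apply key
        rw [hz.2]; positivity
      · obtain ⟨hi, hv⟩ := ZPA_neg a c y0 hc hac h0 h1
        refine ⟨hi, ?_, fun h => absurd h hno⟩
        intro hor
        have h4 : 4 * δ ≤ a := by
          rcases hor with h | h
          · rwa [abs_neg, abs_of_nonneg ha] at h
          · rw [abs_neg, abs_of_pos hc] at h; linarith
        apply key2
        refine hv.trans ?_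
        apply mul_le_mul_of_nonneg_right (ZPA_sq δ a hδ h4) (by linarith)

end SF
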