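import Pool.Agent.helper8.SF.Main

/-!
# Sparse factors of Fermat numbers: final inequalities
-/

set_option autoImplicit false

namespace Pool.Agent.helper8.SF

open Finset

/-- Main inequality, when one of the exponents is `0` and `M` is not too large. -/
theorem main_aux {ι : Type*} [DecidableEq ι] (s : Finset ι) (a : ι → ℕ) (c : ι → ℤ) (m D M : ℕ)
    (hD : D ∣ 2 ^ (2 ^ m) + 1) (hS : (D : ℤ) ∣ ∑ i ∈ s, c i * 2 ^ a i)
    (hF : ¬ ((2 : ℤ) ^ (2 ^ m) + 1 ∣ ∑ i ∈ s, c i * 2 ^ a i)) (hM : 0 < M)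
    (hC1 : 1 ≤ ∑ i ∈ s, (c i).natAbs)
    (i₀ : ι) (hi₀ : i₀ ∈ s) (h0 : a i₀ = 0) (hk : M ^ (s.card - 1) ≤ 2 ^ m) :
    D ^ M ≤ (∑ i ∈ s, (c i).natAbs) ^ (M ^ s.card) * 4 ^ (2 ^ m) := by
  obtain ⟨q, hq, hqM, b, hb⟩ := pigeon (s.erase i₀) a (2 ^ m) M (by positivity) hM
  rw [card_erase_of_mem hi₀] at hqM
  set b' : ι → ℕ := fun i => if i = i₀ then 0 else b i with hb'
  have hb2 : ∀ i ∈ s, (M : ℤ) * |(q : ℤ) * a i - b' i * (2 ^ m : ℕ)| ≤ (2 ^ m : ℕ) := by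
    intro i hi
    by_cases h : i = i₀
    · subst h
      simp [hb', h0]
    · have := hb i (mem_erase.2 ⟨h, hi⟩)
      simpa [hb', h] using this
  set δ := 2 ^ m / M with hδ
  have hb3 : ∀ i ∈ s, |(q : ℤ) * a i - b' i * (2 ^ m : ℕ)| ≤ δ := by
    intro i hi
    have h1 := hb2 i hi
    have hM0 : (0 : ℤ) < M := by exact_mod_cast hM
    rw [hδ, Int.natCast_div]
    rw [Int.le_ediv_iff_mul_le hM0, mul_comm]
    exact h1
  have hnb := norm_bound s a b' c q (2 ^ m / q) (2 ^ m % q) m hq (hqM.trans hk)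
    (Nat.div_add_mod _ _) δ hb3 D hD hS hF
  set C := ∑ i ∈ s, (c i).natAbs with hC
  have hCr : (∑ i ∈ s, |(c i : ℝ)|) = (C : ℝ) := by
    rw [hC]
    push_cast
    apply Finset.sum_congr rfl
    intro i _
    rw [Nat.cast_natAbs, Int.cast_abs]
  rw [hCr] at hnb
  have hnb' : D ≤ C ^ q * 4 ^ δ := by exact_mod_cast hnb
  calc D ^ M ≤ (C ^ q * 4 ^ δ) ^ M := Nat.pow_le_pow_left hnb' _
    _ = C ^ (M * q) * 4 ^ (M * δ) := by rw [mul_pow, ← pow_mul, ← pow_mul]; ring_nf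
    _ ≤ C ^ (M ^ s.card) * 4 ^ (2 ^ m) := by
        apply Nat.mul_le_mul
        · apply Nat.pow_le_pow_right hC1
          have hcard : s.card = s.card - 1 + 1 := by
            have := Finset.card_pos.2 ⟨i₀, hi₀⟩
            omega
          rw [hcard, pow_succ']
          exact Nat.mul_le_mul_left _ hqM
        · exact Nat.pow_le_pow_right (by norm_num) (Nat.mul_div_le _ _)

/-- **Main inequality.** If `D` divides `F = 2 ^ 2 ^ m + 1` and the sum `S` of `k` terms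
`c i * 2 ^ a i`, and `F` does not divide `S`, then `D ^ M ≤ C ^ (M ^ k) * 4 ^ (2 ^ m)` for every
`M ≥ 1`, where `C` is the sum of the `|c i|`. -/
theorem main {ι : Type*} (s : Finset ι) (a : ι → ℕ) (c : ι → ℤ) (m D M : ℕ)
    (hD : D ∣ 2 ^ (2 ^ m) + 1) (hS : (D : ℤ) ∣ ∑ i ∈ s, c i * 2 ^ a i)
    (hF : ¬ ((2 : ℤ) ^ (2 ^ m) + 1 ∣ ∑ i ∈ s, c i * 2 ^ a i)) (hM : 0 < M) :
    D ^ M ≤ (∑ i ∈ s, (c i).natAbs) ^ (M ^ s.card) * 4 ^ (2 ^ m) := by
  classical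
  rcases s.eq_empty_or_nonempty with rfl | hne
  · exact absurd (by simp) hF
  have hS0 : ∑ i ∈ s, c i * (2 : ℤ) ^ a i ≠ 0 := by
    intro h; apply hF; rw [h]; exact dvd_zero _
  obtain ⟨j, hj, hj0⟩ := Finset.exists_ne_zero_of_sum_ne_zero hS0
  have hcj : c j ≠ 0 := left_ne_zero_of_mul hj0
  have hsplit := Finset.add_sum_erase s (fun i => (c i).natAbs) hj
  have hcj1 : 1 ≤ (c j).natAbs := Nat.one_le_iff_ne_zero.2 (Int.natAbs_ne_zero.2 hcj)
  have hC1 : 1 ≤ ∑ i ∈ s, (c i).natAbs := by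
    omega
  have hDpos : 0 < D := Nat.pos_of_dvd_of_pos hD (by positivity)
  have hcop : IsCoprime (2 : ℤ) (2 ^ (2 ^ m) + 1) := ⟨-2 ^ (2 ^ m - 1), 1, by
    have h1 : (2 : ℤ) ^ (2 ^ m) = 2 ^ (2 ^ m - 1) * 2 := by
      rw [← pow_succ]
      congr 1
      have : 0 < 2 ^ m := by positivity
      omega
    rw [h1]; ring⟩
  have hDz : (D : ℤ) ∣ 2 ^ (2 ^ m) + 1 := by exact_mod_cast hD
  have hcopD : IsCoprime (2 : ℤ) D := hcop.of_isCoprime_of_dvd_right hDz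
  by_cases hk : M ^ (s.card - 1) ≤ 2 ^ m
  · obtain ⟨i₀, hi₀, hmin⟩ := s.exists_min_image a hne
    set S' := ∑ i ∈ s, c i * 2 ^ (a i - a i₀) with hS'
    have hSS : ∑ i ∈ s, c i * (2 : ℤ) ^ a i = 2 ^ (a i₀) * S' := by
      rw [hS', Finset.mul_sum]
      apply Finset.sum_congr rfl
      intro i hi
      have : a i = a i₀ + (a i - a i₀) := by have := hmin i hi; omega
      conv_lhs => rw [this, pow_add]
      ring
    have h1 : (D : ℤ) ∣ S' := by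
      rw [hSS] at hS
      exact IsCoprime.dvd_of_dvd_mul_left (IsCoprime.pow_left hcopD).symm hS
    have h2 : ¬ ((2 : ℤ) ^ (2 ^ m) + 1 ∣ S') := fun h => hF (by
      rw [hSS]; exact h.mul_left _)
    exact main_aux s (fun i => a i - a i₀) c m D M hD h1 h2 hM hC1 i₀ hi₀ (by simp) hk
  · -- the trivial case
    rw [not_le] at hk
    rcases Nat.lt_or_ge 1 (∑ i ∈ s, (c i).natAbs) with hC2 | hC2
    · have hDle : D ≤ 2 ^ (2 ^ m + 1) := by
        have h1 := Nat.le_of_dvd (by positivity) hD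
        have h2 : 1 ≤ 2 ^ (2 ^ m) := Nat.one_le_two_pow
        rw [pow_succ]
        omega
      have hcard : s.card = s.card - 1 + 1 := by
        have := Finset.card_pos.2 hne
        omega
      calc D ^ M ≤ (2 ^ (2 ^ m + 1)) ^ M := Nat.pow_le_pow_left hDle _
        _ = 2 ^ ((2 ^ m + 1) * M) := by rw [← pow_mul]
        _ ≤ 2 ^ (M ^ s.card) := by
            apply Nat.pow_le_pow_right (by norm_num)
            rw [hcard, pow_succ]
            exact Nat.mul_le_mul_right _ hk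
        _ ≤ (∑ i ∈ s, (c i).natAbs) ^ (M ^ s.card) := Nat.pow_le_pow_left hC2 _
        _ ≤ (∑ i ∈ s, (c i).natAbs) ^ (M ^ s.card) * 4 ^ (2 ^ m) :=
            Nat.le_mul_of_pos_right _ (by positivity)
    · -- only one term `± 2 ^ a j`, so `D = 1`
      have hother : ∑ i ∈ s.erase j, (c i).natAbs = 0 := by omega
      have hcj2 : (c j).natAbs = 1 := by omega
      have hsum : ∑ i ∈ s, c i * (2 : ℤ) ^ a i = c j * 2 ^ a j := by
        rw [← Finset.add_sum_erase s _ hj, Finset.sum_eq_zero, add_zero]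
        intro i hi
        have := (Finset.sum_eq_zero_iff.1 hother) i hi
        rw [Int.natAbs_eq_zero.1 this, zero_mul]
      rw [hsum] at hS
      have h1 : (D : ℤ) ∣ c j := IsCoprime.dvd_of_dvd_mul_right (IsCoprime.pow_left hcopD).symm hS
      have h2 : D ∣ 1 := by
        have := Int.natAbs_dvd_natAbs.2 h1
        rwa [hcj2, Int.natAbs_natCast] at this
      rw [Nat.dvd_one.1 h2, one_pow]
      exact Nat.mul_pos (Nat.pow_pos hC1) (by positivity)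

/-- If moreover `F ≤ D ^ r`, then `F` is small compared with `k` and `C`. -/
theorem main_root {ι : Type*} (s : Finset ι) (a : ι → ℕ) (c : ι → ℤ) (m D r : ℕ)
    (hD : D ∣ 2 ^ (2 ^ m) + 1) (hS : (D : ℤ) ∣ ∑ i ∈ s, c i * 2 ^ a i)
    (hF : ¬ ((2 : ℤ) ^ (2 ^ m) + 1 ∣ ∑ i ∈ s, c i * 2 ^ a i)) (hr : 2 ^ (2 ^ m) + 1 ≤ D ^ r) :
    2 ^ (2 ^ m) < (∑ i ∈ s, (c i).natAbs) ^ (r * (2 * r + 1) ^ s.card) := by
  have hmain := main s a c m D (2 * r + 1) hD hS hF (by omega)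
  set C := ∑ i ∈ s, (c i).natAbs with hC
  set F := 2 ^ (2 ^ m) with hFd
  have hFpos : 0 < F := by positivity
  have h1 : (F + 1) ^ (2 * r + 1) ≤ C ^ (r * (2 * r + 1) ^ s.card) * F ^ (2 * r) := by
    calc (F + 1) ^ (2 * r + 1) ≤ (D ^ r) ^ (2 * r + 1) := Nat.pow_le_pow_left hr _
      _ = (D ^ (2 * r + 1)) ^ r := by rw [← pow_mul, ← pow_mul, mul_comm]
      _ ≤ (C ^ ((2 * r + 1) ^ s.card) * 4 ^ (2 ^ m)) ^ r := Nat.pow_le_pow_left hmain _
      _ = C ^ (r * (2 * r + 1) ^ s.card) * F ^ (2 * r) := by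
          rw [mul_pow, ← pow_mul, hFd]
          have : (4 : ℕ) ^ (2 ^ m) = (2 ^ (2 ^ m)) ^ 2 := by
            rw [← pow_mul, mul_comm, pow_mul]; norm_num
          rw [this, ← pow_mul]
          ring_nf
  have h2 : F ^ (2 * r) * (F + 1) ≤ (F + 1) ^ (2 * r + 1) := by
    rw [pow_succ]
    exact Nat.mul_le_mul_right _ (Nat.pow_le_pow_left (Nat.le_succ _) _)
  have h3 : F + 1 ≤ C ^ (r * (2 * r + 1) ^ s.card) := by
    have h4 : F ^ (2 * r) * (F + 1) ≤ F ^ (2 * r) * C ^ (r * (2 * r + 1) ^ s.card) := by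
      rw [mul_comm (F ^ (2 * r)) (C ^ _)]
      exact h2.trans h1
    exact Nat.le_of_mul_le_mul_left h4 (by positivity)
  omega

theorem two_mul_five_pow (k : ℕ) (hk : 5 ≤ k) : 2 * k * 5 ^ k ≤ 8 ^ k := by
  induction k, hk using Nat.le_induction with
  | base => norm_num
  | succ k hk ih =>
    calc 2 * (k + 1) * 5 ^ (k + 1) = (10 * (k + 1)) * 5 ^ k := by rw [pow_succ]; ring
      _ ≤ (16 * k) * 5 ^ k := Nat.mul_le_mul_right _ (by omega)
      _ = 8 * (2 * k * 5 ^ k) := by ring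
      _ ≤ 8 * 8 ^ k := Nat.mul_le_mul_left _ ih
      _ = 8 ^ (k + 1) := by rw [pow_succ]; ring

theorem pow_two_mul_five_pow (k : ℕ) (hk : 1 ≤ k) : k ^ (2 * 5 ^ k) ≤ 2 ^ (8 ^ k) := by
  rcases Nat.lt_or_ge k 5 with h | h
  · interval_cases k
    · norm_num
    · norm_num
    · calc 3 ^ (2 * 5 ^ 3) = 3 ^ (5 * 50) := by norm_num
        _ = (3 ^ 5) ^ 50 := pow_mul 3 5 50
        _ ≤ (2 ^ 8) ^ 50 := Nat.pow_le_pow_left (by norm_num) _
        _ = 2 ^ (8 * 50) := (pow_mul 2 8 50).symm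
        _ ≤ 2 ^ (8 ^ 3) := Nat.pow_le_pow_right (by norm_num) (by norm_num)
    · calc 4 ^ (2 * 5 ^ 4) = 2 ^ (2 * (2 * 5 ^ 4)) := by rw [pow_mul 2 2]; norm_num
        _ ≤ 2 ^ (8 ^ 4) := Nat.pow_le_pow_right (by norm_num) (by norm_num)
  · calc k ^ (2 * 5 ^ k) ≤ (2 ^ k) ^ (2 * 5 ^ k) := Nat.pow_le_pow_left Nat.lt_two_pow_self.le _
      _ = 2 ^ (2 * k * 5 ^ k) := by rw [← pow_mul]; ring_nf
      _ ≤ 2 ^ (8 ^ k) := Nat.pow_le_pow_right (by norm_num) (two_mul_five_pow k h)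

/-- A proper divisor `D ≥ √F_m`, or any multiple of it that is not a multiple of `F_m`, is not a
sum of `m / 3` or fewer terms `± 2 ^ a`. -/
theorem digits {ι : Type*} (s : Finset ι) (a : ι → ℕ) (c : ι → ℤ) (m D : ℕ)
    (hD : D ∣ 2 ^ (2 ^ m) + 1) (hr : 2 ^ (2 ^ m) + 1 ≤ D ^ 2) (hc : ∀ i ∈ s, |c i| ≤ 1)
    (hS : (D : ℤ) ∣ ∑ i ∈ s, c i * 2 ^ a i)
    (hF : ¬ ((2 : ℤ) ^ (2 ^ m) + 1 ∣ ∑ i ∈ s, c i * 2 ^ a i)) :
    m < 3 * s.card := by
  by_contra hcon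
  rw [not_lt] at hcon
  have hne : 1 ≤ s.card := by
    rcases s.eq_empty_or_nonempty with rfl | hne
    · exact absurd (by simp) hF
    · exact Finset.card_pos.2 hne
  have h := main_root s a c m D 2 hD hS hF hr
  have hC : ∑ i ∈ s, (c i).natAbs ≤ s.card := by
    calc ∑ i ∈ s, (c i).natAbs ≤ ∑ i ∈ s, 1 := Finset.sum_le_sum fun i hi => by
          have h1 := hc i hi
          rw [← Int.natCast_natAbs] at h1
          exact_mod_cast h1
      _ = s.card := by simp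
  have h1 : (∑ i ∈ s, (c i).natAbs) ^ (2 * (2 * 2 + 1) ^ s.card) ≤ 2 ^ (2 ^ m) := by
    calc (∑ i ∈ s, (c i).natAbs) ^ (2 * (2 * 2 + 1) ^ s.card)
        ≤ s.card ^ (2 * 5 ^ s.card) := Nat.pow_le_pow_left hC _
      _ ≤ 2 ^ (8 ^ s.card) := pow_two_mul_five_pow _ hne
      _ = 2 ^ (2 ^ (3 * s.card)) := by rw [pow_mul]; norm_num
      _ ≤ 2 ^ (2 ^ m) := Nat.pow_le_pow_right (by norm_num) (Nat.pow_le_pow_right (by norm_num) hcon)
  exact absurd h (not_lt.2 h1)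

end Pool.Agent.helper8.SF
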