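import Mathlib

/-!
# Sparse factors of Fermat numbers: irreducibility of `X ^ q + 2 ^ c`

If `q t + c = 2 ^ m` then `X ^ q + 2 ^ c` is irreducible over `ℚ`: a Fermat number has no
algebraic factorisation.
-/

set_option autoImplicit false

open Polynomial

namespace Pool.Agent.helper8.SF

theorem irr_two_pow (s c : ℕ) : Irreducible (X ^ (2 ^ s) - C (-(2 : ℚ) ^ (2 ^ s * c))) := by
  have h1 : Irreducible (X ^ (2 ^ s) + 1 : ℚ[X]) := by
    have h := cyclotomic.irreducible_rat (n := 2 ^ (s + 1)) (by positivity)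
    rw [cyclotomic_prime_pow_eq_geom_sum Nat.prime_two] at h
    simpa [Finset.sum_range_succ, add_comm] using h
  let _ : Invertible (((2 : ℚ) ^ c)⁻¹) := invertibleOfNonzero (by positivity)
  have h2 := (MulEquiv.irreducible_iff (algEquivCMulXAddC (((2 : ℚ) ^ c)⁻¹) 0).toMulEquiv).2 h1
  have h3 : IsUnit (C ((2 : ℚ) ^ (2 ^ s * c))) := isUnit_C.2 (by
    rw [isUnit_iff_ne_zero]; positivity)
  have h4 := (irreducible_isUnit_mul h3).2 h2
  convert h4 using 1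
  have h5 : (algEquivCMulXAddC (((2 : ℚ) ^ c)⁻¹) 0).toMulEquiv (X ^ (2 ^ s) + 1 : ℚ[X]) =
      (C (((2 : ℚ) ^ c)⁻¹) * X) ^ (2 ^ s) + 1 := by
    change (algEquivCMulXAddC (((2 : ℚ) ^ c)⁻¹) 0) (X ^ (2 ^ s) + 1 : ℚ[X]) = _
    simp
  rw [h5, mul_pow, ← C_pow, mul_add, ← mul_assoc, ← C_mul, mul_one]
  have h6 : (2 : ℚ) ^ (2 ^ s * c) * ((2 : ℚ) ^ c)⁻¹ ^ (2 ^ s) = 1 := by
    rw [inv_pow, ← pow_mul, mul_comm c, mul_inv_cancel₀]
    positivity
  rw [h6]
  simp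

theorem exists_pow_eq_norm {K E : Type*} [Field K] [Field E] [Algebra K E] (x : E) (n p : ℕ)
    (hn : 0 < n) (a : K) (hx : minpoly K x = X ^ n - C a) (b : IntermediateField.adjoin K {x})
    (hb : b ^ p = IntermediateField.AdjoinSimple.gen K x) :
    ∃ r : K, r ^ p = (-1) ^ n * (-a) := by
  have hint : IsIntegral K x := not_not.mp fun hh ↦ by
    simpa only [degree_zero, degree_X_pow_sub_C hn,
      WithBot.natCast_ne_bot] using congr_arg degree (hx.symm.trans (dif_neg hh))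
  refine ⟨Algebra.norm _ b, ?_⟩
  rw [← map_pow, hb, ← IntermediateField.adjoin.powerBasis_gen hint,
    Algebra.PowerBasis.norm_gen_eq_coeff_zero_minpoly]
  simp [IntermediateField.minpoly_gen, hx, hn.ne]

theorem irr (m q t c : ℕ) (hq : 0 < q) (hqm : q ≤ 2 ^ m) (h : q * t + c = 2 ^ m) :
    Irreducible (X ^ q - C (-(2 : ℚ) ^ c)) := by
  obtain ⟨s, q1, hodd, hqs⟩ := Nat.exists_eq_two_pow_mul_odd hq.ne'
  have hs : s ≤ m := by
    have : 2 ^ s ≤ 2 ^ m := le_trans (Nat.le_of_dvd hq (hqs ▸ dvd_mul_right _ _)) hqm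
    exact (Nat.pow_le_pow_iff_right (by norm_num)).1 this
  have hc : 2 ^ s ∣ c := by
    have h1 : 2 ^ s ∣ q * t + c := h ▸ pow_dvd_pow 2 hs
    exact (Nat.dvd_add_right (Dvd.dvd.mul_right (hqs ▸ dvd_mul_right _ _) t)).1 h1
  obtain ⟨c1, hc1⟩ := hc
  rw [hqs, mul_comm (2 ^ s) q1, hc1]
  apply X_pow_mul_sub_C_irreducible (irr_two_pow s c1)
  intro E _ _ x hx
  apply X_pow_sub_C_irreducible_of_odd hodd
  intro p hp hpq b hb
  have hp2 : p ≠ 2 := by
    rintro rfl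
    exact (Nat.not_even_iff_odd.2 hodd) (even_iff_two_dvd.2 hpq)
  -- `p` does not divide `c`
  have hpc : ¬ p ∣ 2 ^ s * c1 := by
    intro hpc
    have h1 : p ∣ 2 ^ m := by
      rw [← h]
      apply dvd_add
      · exact Dvd.dvd.mul_right (hqs ▸ Dvd.dvd.mul_left hpq _) t
      · rw [hc1]; exact hpc
    exact hp2 ((Nat.prime_dvd_prime_iff_eq hp Nat.prime_two).1 (hp.dvd_of_dvd_pow h1))
  obtain ⟨r, hr⟩ := exists_pow_eq_norm x (2 ^ s) p (by positivity) _ hx b hb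
  have hr2 : |r| ^ p = 2 ^ (2 ^ s * c1) := by
    rw [← abs_pow, hr, abs_mul]
    simp
  have hr0 : r ≠ 0 := by
    rintro rfl
    rw [abs_zero, zero_pow hp.ne_zero] at hr2
    have : (0 : ℚ) < 2 ^ (2 ^ s * c1) := by positivity
    linarith
  apply hpc
  have h3 : padicValRat 2 (|r| ^ p) = ((2 ^ s * c1 : ℕ) : ℤ) := by
    have h22 : padicValRat 2 (2 : ℚ) = 1 := by
      have := padicValRat.self (p := 2) (by norm_num)
      exact_mod_cast this
    rw [hr2, padicValRat.pow, h22, mul_one]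
  rw [padicValRat.pow] at h3
  have h4 : (p : ℤ) ∣ ((2 ^ s * c1 : ℕ) : ℤ) := ⟨_, h3.symm⟩
  exact_mod_cast h4

end Pool.Agent.helper8.SF
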