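import Pool.Agent.helper8.SF.Irr

/-!
# Sparse factors of Fermat numbers: the main inequality
-/

set_option autoImplicit false

open Polynomial

namespace Pool.Agent.helper8.SF

/-- Simultaneous approximation by the pigeonhole principle. -/
theorem pigeon {ι : Type*} [DecidableEq ι] (s : Finset ι) (a : ι → ℕ) (N M : ℕ) (hN : 0 < N)
    (hM : 0 < M) :
    ∃ q, 0 < q ∧ q ≤ M ^ s.card ∧ ∃ b : ι → ℕ, ∀ i ∈ s,
      (M : ℤ) * |(q : ℤ) * a i - b i * N| ≤ N := by
  classical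
  -- the box of `j`
  let box : ℕ → (s → Fin M) := fun j i => ⟨(M * (j * a i % N)) / N, by
    rw [Nat.div_lt_iff_lt_mul hN]
    exact Nat.mul_lt_mul_of_pos_left (Nat.mod_lt _ hN) hM⟩
  have hcard : Fintype.card (s → Fin M) < (Finset.range (M ^ s.card + 1)).card := by
    rw [Fintype.card_fun, Fintype.card_fin, Fintype.card_coe, Finset.card_range]
    exact Nat.lt_succ_self _
  obtain ⟨x, hx, y, hy, hxy, hbox⟩ := Finset.exists_ne_map_eq_of_card_lt_of_maps_to
    (s := Finset.range (M ^ s.card + 1)) (t := (Finset.univ : Finset (s → Fin M)))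
    (by rwa [Finset.card_univ]) (f := box) (fun _ _ => Finset.mem_univ _)
  wlog hlt : x < y generalizing x y
  · exact this y hy x hx hxy.symm hbox.symm (lt_of_le_of_ne (not_lt.1 hlt) hxy.symm)
  rw [Finset.mem_range] at hx hy
  refine ⟨y - x, by omega, by omega, fun i => y * a i / N - x * a i / N, fun i hi => ?_⟩
  have h1 : (M * (x * a i % N)) / N = (M * (y * a i % N)) / N := by
    have := congrFun hbox ⟨i, hi⟩
    simpa [box] using this
  have hle : x * a i / N ≤ y * a i / N := Nat.div_le_div_right (Nat.mul_le_mul_right _ hlt.le)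
  have hxe : ((x * a i : ℕ) : ℤ) = N * (x * a i / N : ℕ) + (x * a i % N : ℕ) := by
    exact_mod_cast (Nat.div_add_mod (x * a i) N).symm
  have hye : ((y * a i : ℕ) : ℤ) = N * (y * a i / N : ℕ) + (y * a i % N : ℕ) := by
    exact_mod_cast (Nat.div_add_mod (y * a i) N).symm
  have h2 : ((y - x : ℕ) : ℤ) * a i - ((y * a i / N - x * a i / N : ℕ) : ℤ) * N =
      ((y * a i % N : ℕ) : ℤ) - ((x * a i % N : ℕ) : ℤ) := by
    rw [Nat.cast_sub hlt.le, Nat.cast_sub hle]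
    push_cast at hxe hye ⊢
    linarith
  rw [h2, ← abs_of_nonneg (show (0 : ℤ) ≤ M by positivity), ← abs_mul, abs_le]
  set u := x * a i % N
  set v := y * a i % N
  have hu1 := Nat.div_add_mod (M * u) N
  have hv1 := Nat.div_add_mod (M * v) N
  have hu2 := Nat.mod_lt (M * u) hN
  have hv2 := Nat.mod_lt (M * v) hN
  rw [h1] at hu1
  have e1 : (M : ℤ) * u = N * (M * v / N : ℕ) + (M * u % N : ℕ) := by exact_mod_cast hu1.symm
  have e2 : (M : ℤ) * v = N * (M * v / N : ℕ) + (M * v % N : ℕ) := by exact_mod_cast hv1.symm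
  rw [mul_sub, e1, e2]
  have hu3 : ((M * u % N : ℕ) : ℤ) < N := by exact_mod_cast hu2
  have hv3 : ((M * v % N : ℕ) : ℤ) < N := by exact_mod_cast hv2
  have hu4 : (0 : ℤ) ≤ ((M * u % N : ℕ) : ℤ) := by positivity
  have hv4 : (0 : ℤ) ≤ ((M * v % N : ℕ) : ℤ) := by positivity
  constructor <;> linarith

section Norm

variable {ι : Type*} (s : Finset ι) (a b : ι → ℕ) (c : ι → ℤ) (q t d m : ℕ)

/-- The bound for the algebraic integers that replace the terms `2 ^ a i`. -/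
theorem term_bound (hq : 0 < q) (N δ : ℕ) (hN : q * t + d = N) (A B L b' : ℕ) (hb : b' ≤ B)
    (hL : t * B ≤ L) (w : ℕ) (hw : w + b' * N = δ + q * A) (hw2 : w ≤ 2 * δ) (β γ : ℂ)
    (hβ : β ^ q = -2 ^ d) (hγ : γ ^ q = 2) (κ : ℝ) (hκ : 0 ≤ κ) (hκq : κ ^ q = 4 ^ δ) :
    IsIntegral ℤ (γ ^ δ * (2 ^ (L + A - t * b') * β ^ (B - b') / (2 ^ L * β ^ B))) ∧
      ‖γ ^ δ * (2 ^ (L + A - t * b') * β ^ (B - b') / (2 ^ L * β ^ B))‖ ≤ κ := by
  have hβ0 : β ≠ 0 := by
    rintro rfl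
    rw [zero_pow hq.ne'] at hβ
    have : (2 : ℂ) ^ d ≠ 0 := pow_ne_zero _ two_ne_zero
    exact this (by simpa using hβ.symm)
  have htb : t * b' ≤ L := le_trans (Nat.mul_le_mul_left _ hb) hL
  have key : (γ ^ δ * (2 ^ (L + A - t * b') * β ^ (B - b') / (2 ^ L * β ^ B))) ^ q =
      (-1) ^ b' * 2 ^ w := by
    rw [mul_pow, ← pow_mul γ, mul_comm δ q, pow_mul γ, hγ, div_pow, mul_div_assoc',
      div_eq_iff (pow_ne_zero _ (mul_ne_zero (pow_ne_zero _ two_ne_zero)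
      (pow_ne_zero _ hβ0))), mul_pow, mul_pow, ← pow_mul β, ← pow_mul β,
      mul_comm (B - b') q, mul_comm B q, pow_mul β q, pow_mul β q, hβ, ← pow_mul, ← pow_mul]
    obtain ⟨e, rfl⟩ := Nat.exists_eq_add_of_le hb
    rw [Nat.add_sub_cancel_left, neg_pow, neg_pow (2 ^ d) (b' + e), ← pow_mul, ← pow_mul]
    have h1 : δ + ((L + A - t * b') * q + d * e) = w + (L * q + d * (b' + e)) := by
      obtain ⟨f, hf⟩ := Nat.exists_eq_add_of_le htb
      have : L + A - t * b' = f + A := by omega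
      rw [this]
      subst hf
      subst hN
      nlinarith
    have h2 : (2 : ℂ) ^ δ * (2 ^ ((L + A - t * b') * q) * 2 ^ (d * e)) =
        2 ^ w * (2 ^ (L * q) * 2 ^ (d * (b' + e))) := by
      rw [← pow_add, ← pow_add, ← pow_add, ← pow_add, h1]
    have h3 : ((-1 : ℂ)) ^ b' * (-1) ^ (b' + e) = (-1) ^ e := by
      rw [pow_add, ← mul_assoc, ← pow_add, ← two_mul, pow_mul]
      simp
    calc (2 : ℂ) ^ δ * (2 ^ ((L + A - t * b') * q) * ((-1) ^ e * 2 ^ (d * e)))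
        = (-1) ^ e * (2 ^ δ * (2 ^ ((L + A - t * b') * q) * 2 ^ (d * e))) := by ring
      _ = ((-1 : ℂ)) ^ b' * (-1) ^ (b' + e) * (2 ^ w * (2 ^ (L * q) * 2 ^ (d * (b' + e)))) := by
          rw [h2, h3]
      _ = _ := by ring
  constructor
  · apply IsIntegral.of_pow hq
    rw [key]
    have : ((-1 : ℂ)) ^ b' * 2 ^ w = (((-1) ^ b' * 2 ^ w : ℤ) : ℂ) := by push_cast; ring
    rw [this]
    exact isIntegral_algebraMap
  · have h1 : ‖γ ^ δ * (2 ^ (L + A - t * b') * β ^ (B - b') / (2 ^ L * β ^ B))‖ ^ q ≤ κ ^ q := by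
      rw [← norm_pow, key, norm_mul, norm_pow, norm_neg, norm_one, one_pow, one_mul, norm_pow,
        hκq]
      have h4 : (4 : ℝ) ^ δ = 2 ^ (2 * δ) := by
        rw [show (4 : ℝ) = 2 ^ 2 by norm_num, ← pow_mul]
      rw [h4]
      simp only [Complex.norm_ofNat]
      exact pow_le_pow_right₀ (by norm_num) hw2
    exact le_of_pow_le_pow_left₀ hq.ne' hκ h1

/-- The polynomial that replaces the sum. -/
noncomputable def PP (L B : ℕ) : ℤ[X] :=
  ∑ i ∈ s, C (c i * 2 ^ (L + a i - t * b i)) * X ^ (B - b i)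

/-- The binomial. -/
noncomputable def FF : ℤ[X] := X ^ q - C (-(2 : ℤ) ^ d)

theorem FF_monic (hq : 0 < q) : (FF q d).Monic := monic_X_pow_sub_C _ hq.ne'

theorem eval_FF (F : ℤ) (hF : F = 2 ^ (q * t + d) + 1) (τ : ℤ) (hτ : 2 ^ t * τ ≡ 1 [ZMOD F])
    (hc : IsCoprime (2 : ℤ) F) : F ∣ (FF q d).eval τ := by
  have h1 : F ∣ 2 ^ (t * q) * (FF q d).eval τ := by
    have h2 : 2 ^ (t * q) * (FF q d).eval τ = (2 ^ t * τ) ^ q + 2 ^ (q * t + d) := by
      simp only [FF, eval_sub, eval_pow, eval_X, eval_C, mul_pow, ← pow_mul, pow_add]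
      rw [mul_comm q t]
      ring
    rw [h2]
    have h3 : (2 ^ t * τ) ^ q + 2 ^ (q * t + d) ≡ 1 ^ q + 2 ^ (q * t + d) [ZMOD F] :=
      Int.ModEq.add_right _ (hτ.pow q)
    have h4 : (1 : ℤ) ^ q + 2 ^ (q * t + d) = F := by rw [hF]; ring
    rw [h4] at h3
    exact (Int.modEq_zero_iff_dvd).1 (h3.trans (by simp [Int.ModEq]))
  exact IsCoprime.dvd_of_dvd_mul_left (IsCoprime.pow_left hc).symm h1

theorem eval_PP (L B : ℕ) (hB : ∀ i ∈ s, b i ≤ B) (hL : t * B ≤ L) (F : ℤ) (τ : ℤ)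
    (hτ : 2 ^ t * τ ≡ 1 [ZMOD F]) :
    2 ^ (t * B) * (PP s a b c t L B).eval τ ≡ 2 ^ L * ∑ i ∈ s, c i * 2 ^ a i [ZMOD F] := by
  rw [PP, eval_finsetSum, Finset.mul_sum, Finset.mul_sum]
  apply Int.ModEq.sum
  intro i hi
  simp only [eval_mul, eval_C, eval_pow, eval_X]
  have hbi := hB i hi
  have htb : t * b i ≤ L := le_trans (Nat.mul_le_mul_left _ hbi) hL
  have h1 : (2 : ℤ) ^ (t * B) * (c i * 2 ^ (L + a i - t * b i) * τ ^ (B - b i)) =
      (2 ^ t * τ) ^ (B - b i) * (c i * (2 ^ (t * b i) * 2 ^ (L + a i - t * b i))) := by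
    obtain ⟨e, he⟩ := Nat.exists_eq_add_of_le hbi
    rw [he, Nat.add_sub_cancel_left, mul_pow, ← pow_mul, mul_add t, pow_add]
    ring
  have h2 : (2 : ℤ) ^ (t * b i) * 2 ^ (L + a i - t * b i) = 2 ^ L * 2 ^ a i := by
    rw [← pow_add, ← pow_add]
    congr 1
    omega
  rw [h1, h2]
  have h3 := Int.ModEq.mul_right (c i * (2 ^ L * 2 ^ a i)) (hτ.pow (B - b i))
  have h4 : (1 : ℤ) ^ (B - b i) * (c i * (2 ^ L * 2 ^ a i)) =
      2 ^ L * (c i * 2 ^ a i) := by ring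
  rw [h4] at h3
  exact h3

theorem norm_bound (hq : 0 < q) (hqm : q ≤ 2 ^ m) (hN : q * t + d = 2 ^ m) (δ : ℕ)
    (hE : ∀ i ∈ s, |(q : ℤ) * a i - b i * (2 ^ m : ℕ)| ≤ δ) (D : ℕ)
    (hD : D ∣ 2 ^ (2 ^ m) + 1) (hS : (D : ℤ) ∣ ∑ i ∈ s, c i * 2 ^ a i)
    (hF : ¬ ((2 : ℤ) ^ (2 ^ m) + 1 ∣ ∑ i ∈ s, c i * 2 ^ a i)) :
    (D : ℝ) ≤ (∑ i ∈ s, |(c i : ℝ)|) ^ q * 4 ^ δ := by
  obtain ⟨B, hB⟩ : ∃ B, ∀ i ∈ s, b i ≤ B := ⟨s.sup b, fun i hi => Finset.le_sup hi⟩
  set L := t * B with hLdef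
  set F : ℤ := 2 ^ (2 ^ m) + 1 with hFdef
  have hDF : (D : ℤ) ∣ F := by rw [hFdef]; exact_mod_cast hD
  have hc2 : IsCoprime (2 : ℤ) F := ⟨-2 ^ (2 ^ m - 1), 1, by
    have h1 : (2 : ℤ) ^ (2 ^ m) = 2 ^ (2 ^ m - 1) * 2 := by
      rw [← pow_succ]
      congr 1
      have : 0 < 2 ^ m := by positivity
      omega
    rw [hFdef, h1]; ring⟩
  have hcD : IsCoprime (2 : ℤ) D := IsCoprime.of_isCoprime_of_dvd_right hc2 hDF
  have htN : t ≤ 2 ^ m := by
    have : t ≤ q * t := Nat.le_mul_of_pos_left t hq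
    omega
  obtain ⟨τ, hτF⟩ : ∃ τ : ℤ, 2 ^ t * τ ≡ 1 [ZMOD F] := by
    refine ⟨-2 ^ (2 ^ m - t), ?_⟩
    have h1 : (2 : ℤ) ^ t * -2 ^ (2 ^ m - t) = 1 - F := by
      have : (2 : ℤ) ^ t * 2 ^ (2 ^ m - t) = 2 ^ (2 ^ m) := by
        rw [← pow_add]; congr 1; omega
      rw [hFdef]; linarith
    rw [h1]
    exact (Int.modEq_iff_dvd).2 ⟨1, by ring⟩
  have hτD : 2 ^ t * τ ≡ 1 [ZMOD (D : ℤ)] := hτF.of_dvd hDF
  set f := FF q d with hf
  set P := PP s a b c t L B with hP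
  have hfF : F ∣ f.eval τ := eval_FF q t d F (by rw [hN]) τ hτF hc2
  have hPD : (D : ℤ) ∣ P.eval τ := by
    have h1 := eval_PP s a b c t L B hB le_rfl D τ hτD
    have h2 : (D : ℤ) ∣ 2 ^ (t * B) * P.eval τ := by
      apply (Int.modEq_zero_iff_dvd).1
      refine h1.trans ?_
      exact (Int.modEq_zero_iff_dvd).2 (Dvd.dvd.mul_left hS _)
    exact IsCoprime.dvd_of_dvd_mul_left (IsCoprime.pow_left hcD).symm h2
  have hPF : ¬ F ∣ P.eval τ := by
    intro h
    have h1 := eval_PP s a b c t L B hB le_rfl F τ hτF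
    have h2 : F ∣ 2 ^ L * ∑ i ∈ s, c i * 2 ^ a i := by
      apply (Int.modEq_zero_iff_dvd).1
      exact h1.symm.trans ((Int.modEq_zero_iff_dvd).2 (Dvd.dvd.mul_left h _))
    exact hF (IsCoprime.dvd_of_dvd_mul_left (IsCoprime.pow_left hc2).symm h2)
  have hfm : f.Monic := FF_monic q d hq
  have hnd : ¬ f ∣ P := by
    rintro ⟨g, hg⟩
    apply hPF
    rw [hg, eval_mul]
    exact Dvd.dvd.mul_right hfF _
  set R : ℤ := resultant f P f.natDegree P.natDegree with hR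
  have hfdeg : f.natDegree = q := natDegree_X_pow_sub_C
  have hRD : (D : ℤ) ∣ R := by
    obtain ⟨p1, p2, -, -, h⟩ := exists_mul_add_mul_eq_C_resultant f P
      (m := f.natDegree) (n := P.natDegree) le_rfl le_rfl (Or.inl (by rw [hfdeg]; exact hq.ne'))
    have h1 := congrArg (eval τ) h
    rw [eval_add, eval_mul, eval_mul, eval_C] at h1
    rw [hR, ← h1]
    exact dvd_add (Dvd.dvd.mul_right (hDF.trans hfF) _) (Dvd.dvd.mul_right hPD _)
  have hR0 : R ≠ 0 := by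
    intro h0
    have h1 : resultant (f.map (Int.castRingHom ℚ)) (P.map (Int.castRingHom ℚ))
        (f.map (Int.castRingHom ℚ)).natDegree (P.map (Int.castRingHom ℚ)).natDegree = 0 := by
      rw [natDegree_map_eq_of_injective (RingHom.injective_int _),
        natDegree_map_eq_of_injective (RingHom.injective_int _), resultant_map_map, ← hR, h0]
      simp
    refine resultant_ne_zero _ _ ?_ h1
    have hirr : Irreducible (f.map (Int.castRingHom ℚ)) := by
      have := irr m q t d hq hqm hN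
      convert this using 1
      simp only [hf, FF, Polynomial.map_sub, Polynomial.map_pow, map_X, map_C]
      simp
    rw [hirr.coprime_iff_not_dvd]
    intro h2
    exact hnd ((map_dvd_map _ (RingHom.injective_int _) hfm).1 h2)
  -- the roots
  set fC := f.map (Int.castRingHom ℂ) with hfC
  set PC := P.map (Int.castRingHom ℂ) with hPC
  have hfCm : fC.Monic := hfm.map _
  have hfCdeg : fC.natDegree = q := by rw [hfC, hfm.natDegree_map, hfdeg]
  have hsplit : fC.Splits := IsAlgClosed.splits fC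
  have hcardroots : Multiset.card fC.roots = q := by
    rw [← hsplit.natDegree_eq_card_roots, hfCdeg]
  have hRC : (R : ℂ) = (fC.roots.map PC.eval).prod := by
    have h1 := resultant_eq_prod_eval fC PC P.natDegree natDegree_map_le hsplit
    rw [hfCm.leadingCoeff, one_pow, one_mul] at h1
    rw [← h1, hfC, hPC, hfm.natDegree_map, resultant_map_map, ← hR]
    simp
  have hroot : ∀ β ∈ fC.roots, β ^ q = -2 ^ d := by
    intro β hβ
    have h1 := isRoot_of_mem_roots hβ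
    rw [IsRoot.def, hfC, hf, FF] at h1
    simp only [Polynomial.map_sub, Polynomial.map_pow, map_X, map_C, eval_sub, eval_pow, eval_X,
      eval_C] at h1
    rw [sub_eq_zero] at h1
    rw [h1]
    simp
  set g : ℂ → ℂ := fun β => ∑ i ∈ s,
    (c i : ℂ) * (2 ^ (L + a i - t * b i) * β ^ (B - b i) / (2 ^ L * β ^ B)) with hg
  have hPg : ∀ β ∈ fC.roots, PC.eval β = (2 ^ L * β ^ B) * g β := by
    intro β hβ
    have hβ0 : β ≠ 0 := by
      rintro rfl
      have h1 := hroot 0 hβ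
      rw [zero_pow hq.ne'] at h1
      have h2 : (2 : ℂ) ^ d ≠ 0 := pow_ne_zero _ two_ne_zero
      exact h2 (by simpa using h1.symm)
    rw [hPC, hP, PP, hg]
    simp only [Polynomial.map_sum, Polynomial.map_mul, Polynomial.map_pow, map_X, map_C,
      eval_finsetSum, eval_mul, eval_C, eval_pow, eval_X]
    rw [Finset.mul_sum]
    apply Finset.sum_congr rfl
    intro i _
    have h3 : (2 : ℂ) ^ L * β ^ B ≠ 0 :=
      mul_ne_zero (pow_ne_zero _ two_ne_zero) (pow_ne_zero _ hβ0)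
    field_simp
    simp
  -- an auxiliary root of `2`
  set γ : ℂ := (((2 : ℝ) ^ ((1 : ℝ) / q) : ℝ) : ℂ) with hγdef
  have hγ : γ ^ q = 2 := by
    rw [hγdef, ← Complex.ofReal_pow, ← Real.rpow_natCast, ← Real.rpow_mul (by norm_num),
      one_div, inv_mul_cancel₀ (by exact_mod_cast hq.ne')]
    simp
  set κ : ℝ := ‖γ‖ ^ (2 * δ) with hκdef
  have hκ : 0 ≤ κ := by positivity
  have hκq : κ ^ q = 4 ^ δ := by
    rw [hκdef, ← pow_mul, mul_comm, pow_mul, ← norm_pow, hγ, pow_mul]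
    norm_num
  have hterm : ∀ β ∈ fC.roots, ∀ i ∈ s,
      IsIntegral ℤ (γ ^ δ * (2 ^ (L + a i - t * b i) * β ^ (B - b i) / (2 ^ L * β ^ B))) ∧
      ‖γ ^ δ * (2 ^ (L + a i - t * b i) * β ^ (B - b i) / (2 ^ L * β ^ B))‖ ≤ κ := by
    intro β hβ i hi
    have h1 := hE i hi
    rw [abs_le] at h1
    have h2 : (0 : ℤ) ≤ δ + q * a i - b i * (2 ^ m : ℕ) := by linarith [h1.1]
    have h3 : δ + q * a i - b i * 2 ^ m + b i * 2 ^ m = δ + q * a i := by
      have : b i * 2 ^ m ≤ δ + q * a i := by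
        have : ((b i * 2 ^ m : ℕ) : ℤ) ≤ ((δ + q * a i : ℕ) : ℤ) := by
          push_cast at h2 ⊢; linarith
        exact_mod_cast this
      omega
    have h4 : δ + q * a i - b i * 2 ^ m ≤ 2 * δ := by
      have : ((δ + q * a i : ℕ) : ℤ) ≤ ((2 * δ + b i * 2 ^ m : ℕ) : ℤ) := by
        have := h1.2
        push_cast at this ⊢; linarith
      have : δ + q * a i ≤ 2 * δ + b i * 2 ^ m := by exact_mod_cast this
      omega
    exact term_bound q t d hq (2 ^ m) δ hN (a i) B L (b i) (hB i hi) le_rfl _ h3 h4 β γ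
      (hroot β hβ) hγ κ hκ hκq
  have hgexp : ∀ β, γ ^ δ * g β = ∑ i ∈ s,
      (c i : ℂ) * (γ ^ δ * (2 ^ (L + a i - t * b i) * β ^ (B - b i) / (2 ^ L * β ^ B))) := by
    intro β
    rw [hg, Finset.mul_sum]
    apply Finset.sum_congr rfl
    intro i _
    ring
  set W : ℂ := (fC.roots.map fun β => γ ^ δ * g β).prod with hW
  have hWint : IsIntegral ℤ W := by
    apply IsIntegral.multiset_prod
    intro x hx
    obtain ⟨β, hβ, rfl⟩ := Multiset.mem_map.1 hx
    rw [hgexp]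
    apply IsIntegral.sum
    intro i hi
    exact IsIntegral.mul isIntegral_algebraMap (hterm β hβ i hi).1
  have hgn : ∀ β ∈ fC.roots, ‖γ ^ δ * g β‖ ≤ (∑ i ∈ s, |(c i : ℝ)|) * κ := by
    intro β hβ
    rw [hgexp, Finset.sum_mul]
    refine (norm_sum_le _ _).trans (Finset.sum_le_sum fun i hi => ?_)
    rw [norm_mul]
    rw [Complex.norm_intCast]
    exact mul_le_mul_of_nonneg_left (hterm β hβ i hi).2 (abs_nonneg _)
  have hWn : ‖W‖ ≤ (∑ i ∈ s, |(c i : ℝ)|) ^ q * 4 ^ δ := by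
    have hK : 0 ≤ (∑ i ∈ s, |(c i : ℝ)|) * κ := by positivity
    have key : ∀ S : Multiset ℂ, (∀ β ∈ S, ‖γ ^ δ * g β‖ ≤ (∑ i ∈ s, |(c i : ℝ)|) * κ) →
        ‖(S.map fun β => γ ^ δ * g β).prod‖ ≤
          ((∑ i ∈ s, |(c i : ℝ)|) * κ) ^ Multiset.card S := by
      intro S
      induction S using Multiset.induction_on with
      | empty => intro _; simp
      | cons x S ih =>
        intro h
        rw [Multiset.map_cons, Multiset.prod_cons, norm_mul, Multiset.card_cons, pow_succ']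
        exact mul_le_mul (h x (Multiset.mem_cons_self _ _))
          (ih fun β hβ => h β (Multiset.mem_cons_of_mem hβ)) (norm_nonneg _) hK
    have := key fC.roots hgn
    rwa [hcardroots, mul_pow, hκq] at this
  -- the relation between `R` and `W`
  have hprod : fC.roots.prod = (-1) ^ q * 2 ^ d := by
    have h1 := hsplit.coeff_zero_eq_prod_roots_of_monic hfCm
    rw [hfCdeg] at h1
    have h2 : fC.coeff 0 = 2 ^ d := by
      rw [hfC, hf, FF, coeff_zero_eq_eval_zero]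
      simp [hq.ne']
    rw [h2] at h1
    rw [h1, ← mul_assoc, ← pow_add, ← two_mul, pow_mul]
    simp
  have hWG : W = 2 ^ δ * (fC.roots.map g).prod := by
    rw [hW, Multiset.prod_map_mul, Multiset.map_const', Multiset.prod_replicate, hcardroots,
      ← pow_mul, mul_comm δ q, pow_mul, hγ]
  obtain ⟨σ, hσ, hRW⟩ : ∃ σ : ℤ, (σ = 1 ∨ σ = -1) ∧
      (2 : ℂ) ^ δ * (R : ℂ) = σ * 2 ^ (L * q + d * B) * W := by
    refine ⟨(-1) ^ (q * B), neg_one_pow_eq_or ℤ _, ?_⟩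
    rw [hRC, Multiset.map_congr rfl hPg, Multiset.prod_map_mul, Multiset.prod_map_mul,
      Multiset.map_const', Multiset.prod_replicate, hcardroots, Multiset.prod_map_pow,
      Multiset.map_id', hprod, hWG]
    push_cast
    rw [mul_pow, ← pow_mul, ← pow_mul, ← pow_mul, pow_add]
    ring
  obtain ⟨w, hw⟩ : ∃ w : ℤ, (w : ℂ) = W := by
    have h1 : W = ((σ * (2 ^ δ * R) / 2 ^ (L * q + d * B) : ℚ) : ℂ) := by
      have h2 : (2 : ℂ) ^ (L * q + d * B) ≠ 0 := pow_ne_zero _ two_ne_zero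
      push_cast
      rw [hRW, eq_div_iff h2]
      rcases hσ with rfl | rfl
      · push_cast; ring
      · push_cast; ring
    have h2 : IsIntegral ℤ ((σ * (2 ^ δ * R) / 2 ^ (L * q + d * B) : ℚ)) := by
      have h3 : IsIntegral ℤ (algebraMap ℚ ℂ (σ * (2 ^ δ * R) / 2 ^ (L * q + d * B) : ℚ)) := by
        rw [eq_ratCast, ← h1]; exact hWint
      exact (isIntegral_algebraMap_iff (algebraMap ℚ ℂ).injective).1 h3
    obtain ⟨w, hw⟩ := (IsIntegrallyClosed.isIntegral_iff (R := ℤ) (K := ℚ)).1 h2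
    refine ⟨w, ?_⟩
    rw [h1, ← hw]
    simp
  have hRw : 2 ^ δ * R = σ * 2 ^ (L * q + d * B) * w := by
    have : ((2 ^ δ * R : ℤ) : ℂ) = ((σ * 2 ^ (L * q + d * B) * w : ℤ) : ℂ) := by
      push_cast
      rw [hRW, ← hw]
    exact_mod_cast this
  have hDw : (D : ℤ) ∣ w := by
    have h1 : (D : ℤ) ∣ 2 ^ (L * q + d * B) * w := by
      have h2 : (D : ℤ) ∣ 2 ^ δ * R := Dvd.dvd.mul_left hRD _
      rw [hRw] at h2
      rcases hσ with rfl | rfl
      · simpa using h2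
      · have := (dvd_neg (α := ℤ)).2 h2
        simpa [mul_assoc] using this
    exact IsCoprime.dvd_of_dvd_mul_left (IsCoprime.pow_left hcD).symm h1
  have hw0 : w ≠ 0 := by
    rintro rfl
    rw [mul_zero] at hRw
    rcases mul_eq_zero.1 hRw with h | h
    · exact absurd h (by positivity)
    · exact hR0 h
  have h5 : (D : ℤ) ≤ |w| := Int.le_of_dvd (abs_pos.2 hw0) ((dvd_abs _ _).2 hDw)
  have h6 : (D : ℝ) ≤ ‖W‖ := by
    rw [← hw]
    rw [Complex.norm_intCast]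
    exact_mod_cast h5
  exact h6.trans hWn

end Norm

end Pool.Agent.helper8.SF
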